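import Mathlib

/-! Project HZ (MP_9c2350_lc, helper55): an explicit formula, computable in polynomial time, for a
colour vector with positive Hurwitz product. `α_k = M * tr (B_k (1 + S)^n)`, `B_k` the 0/1 patterns,
`S = ∑ B_k`, `M` an explicit number of polynomially many digits. -/

set_option autoImplicit false

namespace Pool.Agent.X55.HZ

open Finset

/-- Walks with a given colour vector in the coloured graph `E`. -/
inductive Wk {n m : ℕ} (E : Fin m → Fin n → Fin n → Prop) :
    (Fin m → ℕ) → Fin n → Fin n → Prop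
  | nil (x : Fin n) : Wk E 0 x x
  | cons {k : Fin m} {x y z : Fin n} {α : Fin m → ℕ} (h : E k x y) (w : Wk E α y z) :
      Wk E (α + Pi.single k 1) x z

/-- The Hurwitz product: the sum of all products in which `A i` occurs exactly `α i` times. -/
noncomputable def hur {n m : ℕ} (A : Fin m → Matrix (Fin n) (Fin n) ℝ) (α : Fin m → ℕ) :
    Matrix (Fin n) (Fin n) ℝ :=
  ∑ w : Fin (∑ i, α i) → Fin m with ∀ i, (univ.filter (fun t => w t = i)).card = α i,
    (List.ofFn fun t => A (w t)).prod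

/-- (HUR) positivity of the Hurwitz product means walks. Hint: generalise to words of length `N`
(`List`s); an entry of a product of nonnegative matrices is positive iff there is a path. -/
def S_HUR : Prop := ∀ (n m : ℕ) (A : Fin m → Matrix (Fin n) (Fin n) ℝ), (∀ k x y, 0 ≤ A k x y) →
  ∀ (α : Fin m → ℕ) (x y : Fin n), 0 < hur A α x y ↔ Wk (fun k x y => 0 < A k x y) α x y

/-- divergence condition: `f` is a flow from `u` to `v` -/
def Flow {n m : ℕ} (f : Fin m → Fin n → Fin n → ℕ) (u v : Fin n) : Prop :=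
  ∀ z, (∑ k, ∑ y, f k z y) + (if z = v then 1 else 0)
    = (∑ k, ∑ x, f k x z) + (if z = u then 1 else 0)

/-- (EUL) Euler trails in directed multigraphs. -/
def S_EUL : Prop := ∀ (n m : ℕ) (f : Fin m → Fin n → Fin n → ℕ) (u v : Fin n),
  (∀ x y, Relation.ReflTransGen (fun a b => ∃ k, f k a b ≠ 0) x y) → Flow f u v →
  Wk (fun k x y => f k x y ≠ 0) (fun k => ∑ x, ∑ y, f k x y) u v

/-- (CNT) the edge counts of a walk. -/
def S_CNT : Prop := ∀ (n m : ℕ) (E : Fin m → Fin n → Fin n → Prop) (α : Fin m → ℕ) (u v : Fin n),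
  Wk E α u v → ∃ f : Fin m → Fin n → Fin n → ℕ, (∀ k x y, f k x y ≠ 0 → E k x y) ∧
    (∀ k, ∑ x, ∑ y, f k x y = α k) ∧ Flow f u v

/-- (SML) small integer solutions. Proof: choose a nonsingular square submatrix `A[R,T]` of maximal
size, `D` its determinant, `|D| ≤ (card κ)!`. For a column `j ∉ T`: `D * col_j = ∑_{s ∈ T} c_s col_s`
with integers `c_s` (Cramer; `col_j` is a rational combination of the columns in `T`). So `x_j` can be
reduced modulo `D` for all `j ∉ T`; then the `x_s`, `s ∈ T`, are bounded by Cramer: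
`|x_s| ≤ (card κ)! * (1 + card κ * (card κ)!)`. -/
def S_SML : Prop := ∀ (ι κ : Type) [Fintype ι] [DecidableEq ι] [Fintype κ] [DecidableEq κ]
  (A : Matrix ι κ ℤ) (b : ι → ℤ), (∀ i j, |A i j| ≤ 1) → (∀ i, |b i| ≤ 1) →
  (∃ x : κ → ℤ, A.mulVec x = b) →
  ∃ x : κ → ℤ, A.mulVec x = b ∧
    ∀ j, |x j| ≤ ((Fintype.card κ + 1) * ((Fintype.card κ).factorial) ^ 2 : ℕ)

/-- (POS) positive powers. Proof: the set of `y` with `((1+S)^k) x y ≠ 0` grows strictly with `k` until
it is everything. -/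
def S_POS : Prop := ∀ (n : ℕ) (S : Matrix (Fin n) (Fin n) ℕ),
  (∀ x y, Relation.ReflTransGen (fun a b => S a b ≠ 0) x y) → ∀ x y, ((1 + S) ^ n) x y ≠ 0

/-- the multiplier -/
def Mb (n m : ℕ) : ℕ := 1 + (m * (n * n) + 1) * (m * (n * n)).factorial ^ 2

/-- the output, a function of the patterns -/
def alg (n m : ℕ) (B : Fin m → Matrix (Fin n) (Fin n) ℕ) (k : Fin m) : ℕ :=
  Mb n m * (B k * (1 + ∑ i, B i) ^ n).trace

/-- (SIZ) size of the output: row sums of `1 + S` are at most `1 + m n`, `N! ≤ N ^ N`, `x < 2 ^ x`. -/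
def S_SIZ : Prop := ∀ (n m : ℕ) (B : Fin m → Matrix (Fin n) (Fin n) ℕ), (∀ k x y, B k x y ≤ 1) →
  ∀ k, alg n m B k < 2 ^ ((2 * (m * (n * n)) + n + 6) * (m * (n * n) + n + 2))

end Pool.Agent.X55.HZ
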