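import Pool.Agent.X55.HZ.Stm

set_option autoImplicit false

namespace Pool.Agent.X55.HZ.EUL

open Finset

variable {n m : ℕ}

/-- the count function of one edge -/
def ed (k : Fin m) (x y : Fin n) : Fin m → Fin n → Fin n → ℕ :=
  fun k' x' y' => if k' = k ∧ x' = x ∧ y' = y then 1 else 0

/-- trails with their edge counts -/
inductive T : (Fin m → Fin n → Fin n → ℕ) → Fin n → Fin n → Prop
  | nil (x : Fin n) : T 0 x x
  | cons {k : Fin m} {x y z : Fin n} {g : Fin m → Fin n → Fin n → ℕ} (w : T g y z) :
      T (ed k x y + g) x z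

theorem T.append {g g' : Fin m → Fin n → Fin n → ℕ} {x y z : Fin n} (h : T g x y)
    (h' : T g' y z) : T (g + g') x z := by
  induction h with
  | nil x => simpa using h'
  | cons w ih => rw [add_assoc]; exact T.cons (ih h')

def out (g : Fin m → Fin n → Fin n → ℕ) (z : Fin n) : ℕ := ∑ k, ∑ y, g k z y
def inn (g : Fin m → Fin n → Fin n → ℕ) (z : Fin n) : ℕ := ∑ k, ∑ x, g k x z
def tot (g : Fin m → Fin n → Fin n → ℕ) : ℕ := ∑ k, ∑ x, ∑ y, g k x y

theorem out_add (g g' : Fin m → Fin n → Fin n → ℕ) (z : Fin n) :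
    out (g + g') z = out g z + out g' z := by
  simp [out, sum_add_distrib]

theorem inn_add (g g' : Fin m → Fin n → Fin n → ℕ) (z : Fin n) :
    inn (g + g') z = inn g z + inn g' z := by
  simp [inn, sum_add_distrib]

theorem tot_add (g g' : Fin m → Fin n → Fin n → ℕ) : tot (g + g') = tot g + tot g' := by
  simp [tot, sum_add_distrib]

theorem out_ed (k : Fin m) (x y z : Fin n) : out (ed k x y) z = if z = x then 1 else 0 := by
  unfold out ed
  rw [Finset.sum_eq_single k, Finset.sum_eq_single y]
  · simp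
  · intro b _ hb; simp [hb]
  · simp
  · intro b _ hb; simp [hb]
  · simp

theorem inn_ed (k : Fin m) (x y z : Fin n) : inn (ed k x y) z = if z = y then 1 else 0 := by
  unfold inn ed
  rw [Finset.sum_eq_single k, Finset.sum_eq_single x]
  · simp
  · intro b _ hb; simp [hb]
  · simp
  · intro b _ hb; simp [hb]
  · simp

theorem tot_ed (k : Fin m) (x y : Fin n) : tot (ed k x y) = 1 := by
  unfold tot ed
  rw [Finset.sum_eq_single k, Finset.sum_eq_single x, Finset.sum_eq_single y]
  · simp
  · intro b _ hb; simp [hb]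
  · simp
  · intro b _ hb; simp [hb]
  · simp
  · intro b _ hb; simp [hb]
  · simp

theorem flow_iff (f : Fin m → Fin n → Fin n → ℕ) (u v : Fin n) :
    Flow f u v ↔ ∀ z, out f z + (if z = v then 1 else 0) = inn f z + (if z = u then 1 else 0) :=
  Iff.rfl

theorem ed_le {f : Fin m → Fin n → Fin n → ℕ} {k : Fin m} {x y : Fin n} (h : f k x y ≠ 0) :
    ed k x y ≤ f := by
  intro k' x' y'
  unfold ed
  split_ifs with h1
  · obtain ⟨rfl, rfl, rfl⟩ := h1
    exact Nat.pos_of_ne_zero h
  · exact Nat.zero_le _

theorem exists_add {f g : Fin m → Fin n → Fin n → ℕ} (h : g ≤ f) : ∃ r, f = g + r :=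
  ⟨fun k x y => f k x y - g k x y, by
    funext k x y
    have h1 : g k x y ≤ f k x y := h k x y
    change f k x y = g k x y + (f k x y - g k x y)
    omega⟩

theorem flow_sub {f : Fin m → Fin n → Fin n → ℕ} {k : Fin m} {x y v : Fin n}
    (h : Flow (ed k x y + f) x v) : Flow f y v := by
  rw [flow_iff] at h ⊢
  intro z
  have := h z
  rw [out_add, inn_add, out_ed, inn_ed] at this
  omega

/-- a flow from `u` to `v` contains a trail from `u` to `v` -/
theorem peel (N : ℕ) : ∀ (f : Fin m → Fin n → Fin n → ℕ) (u v : Fin n), tot f = N → Flow f u v →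
    ∃ g, T g u v ∧ g ≤ f := by
  induction N using Nat.strong_induction_on with
  | _ N ih =>
    intro f u v hN hf
    by_cases huv : u = v
    · subst huv
      exact ⟨0, T.nil u, fun _ _ _ => Nat.zero_le _⟩
    have h1 := (flow_iff f u v).1 hf u
    rw [if_neg huv, if_pos rfl] at h1
    have h2 : out f u ≠ 0 := by omega
    obtain ⟨k, _, hk⟩ := Finset.exists_ne_zero_of_sum_ne_zero h2
    obtain ⟨y, _, hy⟩ := Finset.exists_ne_zero_of_sum_ne_zero hk
    obtain ⟨r, rfl⟩ := exists_add (ed_le hy)
    obtain ⟨g, hg, hle⟩ := ih (tot r) (by rw [← hN, tot_add, tot_ed]; omega) r y v rfl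
      (flow_sub hf)
    refine ⟨ed k u y + g, T.cons hg, fun a b c => ?_⟩
    have h3 : g a b c ≤ r a b c := hle a b c
    change ed k u y a b c + g a b c ≤ ed k u y a b c + r a b c
    omega

theorem T.mem {g : Fin m → Fin n → Fin n → ℕ} {u v : Fin n} (h : T g u v) {k : Fin m}
    {x y : Fin n} (hk : g k x y ≠ 0) : ∃ ga gb, g = ga + gb ∧ T ga u y ∧ T gb y v := by
  induction h with
  | nil x => simp at hk
  | @cons k' x' y' z g' w ih =>
    by_cases h1 : k = k' ∧ x = x' ∧ y = y'
    · obtain ⟨rfl, rfl, rfl⟩ := h1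
      exact ⟨ed k x y + 0, g', by simp, T.cons (T.nil _), w⟩
    · have : g' k x y ≠ 0 := by
        simp only [Pi.add_apply, ed, if_neg h1] at hk
        omega
      obtain ⟨ga, gb, rfl, ha, hb⟩ := ih this
      exact ⟨ed k' x' y' + ga, gb, by rw [add_assoc], T.cons ha, hb⟩

theorem T.flow {g : Fin m → Fin n → Fin n → ℕ} {u v : Fin n} (h : T g u v) : Flow g u v := by
  rw [flow_iff]
  induction h with
  | nil x => intro z; simp [out, inn]
  | @cons k' x' y' z' g' w ih =>
    intro z
    have := ih z
    rw [out_add, inn_add, out_ed, inn_ed]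
    omega

theorem grow (f : Fin m → Fin n → Fin n → ℕ) (u v : Fin n)
    (hc : ∀ x y, Relation.ReflTransGen (fun a b => ∃ k, f k a b ≠ 0) x y) (hf : Flow f u v)
    (N : ℕ) : ∀ (g r : Fin m → Fin n → Fin n → ℕ), tot r = N → f = g + r → T g u v →
      T f u v := by
  induction N using Nat.strong_induction_on with
  | _ N ih =>
    intro g r hN hfg hg
    by_cases hr : r = 0
    · subst hr
      rw [add_zero] at hfg
      rw [hfg]; exact hg
    -- a vertex of the trail with an unused outgoing edge
    obtain ⟨z, ga, gb, hgab, ha, hb, k, y, hk⟩ : ∃ z ga gb, g = ga + gb ∧ T ga u z ∧ T gb z v ∧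
        ∃ k y, r k z y ≠ 0 := by
      by_contra hcon
      push Not at hcon
      have hall : ∀ z, ∃ ga gb, g = ga + gb ∧ T ga u z ∧ T gb z v := by
        intro z
        induction hc u z with
        | refl => exact ⟨0, g, by simp, T.nil u, hg⟩
        | @tail b c _ hbc ihz =>
          obtain ⟨ga, gb, h1, h2, h3⟩ := ihz
          obtain ⟨k, hk⟩ := hbc
          have h4 := hcon b ga gb h1 h2 h3 k c
          have h5 : g k b c ≠ 0 := by
            rw [hfg] at hk
            simp only [Pi.add_apply, h4, add_zero] at hk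
            exact hk
          exact hg.mem h5
      apply hr
      funext k z y
      obtain ⟨ga, gb, h1, h2, h3⟩ := hall z
      exact hcon z ga gb h1 h2 h3 k y
    obtain ⟨r1, rfl⟩ := exists_add (ed_le hk)
    -- the rest is a circulation
    have hr1 : Flow r1 y z := by
      rw [flow_iff]
      intro a
      have e1 := (flow_iff f u v).1 hf a
      have e2 := (flow_iff g u v).1 hg.flow a
      rw [hfg, out_add, inn_add, out_add, inn_add, out_ed, inn_ed] at e1
      omega
    obtain ⟨c, hcT, hcle⟩ := peel _ r1 y z rfl hr1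
    obtain ⟨r2, rfl⟩ := exists_add hcle
    have hc2 : T (ed k z y + c) z z := T.cons hcT
    refine ih (tot r2) ?_ (ga + (ed k z y + c) + gb) r2 rfl ?_ ((ha.append hc2).append hb)
    · rw [← hN, tot_add, tot_add, tot_ed]; omega
    · rw [hfg, hgab]; abel

theorem T.wk {f g : Fin m → Fin n → Fin n → ℕ} {u v : Fin n} (h : T g u v) (hle : g ≤ f) :
    Wk (fun k x y => f k x y ≠ 0) (fun k => ∑ x, ∑ y, g k x y) u v := by
  induction h with
  | nil x =>
    have : (fun k => ∑ x, ∑ y, (0 : Fin m → Fin n → Fin n → ℕ) k x y) = 0 := by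
      funext k; simp
    rw [this]
    exact Wk.nil x
  | @cons k' x' y' z' g' w ih =>
    have h1 : g' ≤ f := fun a b c => by
      have h3 : ed k' x' y' a b c + g' a b c ≤ f a b c := hle a b c
      change g' a b c ≤ f a b c
      omega
    have h2 : f k' x' y' ≠ 0 := by
      have h3 : ed k' x' y' k' x' y' + g' k' x' y' ≤ f k' x' y' := hle k' x' y'
      have h4 : ed k' x' y' k' x' y' = 1 := by simp [ed]
      omega
    have e : (fun k => ∑ x, ∑ y, (ed k' x' y' + g') k x y)
        = (fun k => ∑ x, ∑ y, g' k x y) + Pi.single k' 1 := by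
      funext k
      simp only [Pi.add_apply, sum_add_distrib]
      rw [add_comm]
      congr 1
      by_cases hk : k = k'
      · subst hk
        rw [Pi.single_eq_same, Finset.sum_eq_single x', Finset.sum_eq_single y']
        · simp [ed]
        · intro b _ hb; simp [ed, hb]
        · simp
        · intro b _ hb; simp [ed, hb]
        · simp
      · rw [Pi.single_eq_of_ne hk]
        simp [ed, hk]
    rw [e]
    exact Wk.cons h2 (ih h1)

theorem t_EUL : S_EUL := by
  intro n m f u v hc hf
  obtain ⟨g, hg, hle⟩ := peel _ f u v rfl hf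
  obtain ⟨r, hr⟩ := exists_add hle
  have hT := grow f u v hc hf _ g r rfl hr hg
  exact hT.wk le_rfl

end Pool.Agent.X55.HZ.EUL
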