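import Pool.Agent.X55.HZ.Stm

set_option autoImplicit false

namespace Pool.Agent.X55.HZ.Main

open Finset Classical

variable {n m : ℕ}

/-- the balance matrix of the coloured graph `E` -/
noncomputable def am (E : Fin m → Fin n → Fin n → Prop) :
    Matrix (Fin n ⊕ Fin m) (Fin m × Fin n × Fin n) ℤ :=
  Matrix.of fun i j =>
    if E j.1 j.2.1 j.2.2 then
      (match i with
        | Sum.inl z => (if z = j.2.1 then 1 else 0) - (if z = j.2.2 then 1 else 0)
        | Sum.inr k => if k = j.1 then 1 else 0)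
    else 0

noncomputable def mask (E : Fin m → Fin n → Fin n → Prop) (X : Fin m × Fin n × Fin n → ℤ)
    (k : Fin m) (x y : Fin n) : ℤ := if E k x y then X (k, x, y) else 0

theorem am_inl (E : Fin m → Fin n → Fin n → Prop) (X : Fin m × Fin n × Fin n → ℤ) (z : Fin n) :
    (am E).mulVec X (Sum.inl z) = (∑ k, ∑ y, mask E X k z y) - ∑ k, ∑ x, mask E X k x z := by
  have h : (am E).mulVec X (Sum.inl z) = ∑ k, ∑ x, ∑ y,
      (((if z = x then 1 else 0) - (if z = y then 1 else 0)) * mask E X k x y) := by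
    rw [Matrix.mulVec, dotProduct, Fintype.sum_prod_type]
    refine Finset.sum_congr rfl fun k _ => ?_
    rw [Fintype.sum_prod_type]
    refine Finset.sum_congr rfl fun x _ => Finset.sum_congr rfl fun y _ => ?_
    simp only [am, Matrix.of_apply, mask]
    split_ifs <;> simp
  rw [h, ← Finset.sum_sub_distrib]
  refine Finset.sum_congr rfl fun k _ => ?_
  simp only [sub_mul, Finset.sum_sub_distrib]
  congr 1
  · rw [Finset.sum_eq_single z]
    · simp
    · intro b _ hb; simp [Ne.symm hb]
    · simp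
  · refine Finset.sum_congr rfl fun x _ => ?_
    rw [Finset.sum_eq_single z]
    · simp
    · intro b _ hb; simp [Ne.symm hb]
    · simp

theorem am_inr (E : Fin m → Fin n → Fin n → Prop) (X : Fin m × Fin n × Fin n → ℤ) (i : Fin m) :
    (am E).mulVec X (Sum.inr i) = ∑ x, ∑ y, mask E X i x y := by
  rw [Matrix.mulVec, dotProduct, Fintype.sum_prod_type, Finset.sum_eq_single i]
  · rw [Fintype.sum_prod_type]
    refine Finset.sum_congr rfl fun x _ => Finset.sum_congr rfl fun y _ => ?_
    simp only [am, Matrix.of_apply, mask]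
    split_ifs <;> simp
  · intro k _ hk
    apply Finset.sum_eq_zero
    intro j _
    simp [am, Ne.symm hk]
  · simp

theorem am_le (E : Fin m → Fin n → Fin n → Prop) (i : Fin n ⊕ Fin m)
    (j : Fin m × Fin n × Fin n) : |am E i j| ≤ 1 := by
  rcases i with z | k
  · simp only [am, Matrix.of_apply]
    split_ifs <;> simp
  · simp only [am, Matrix.of_apply]
    split_ifs <;> simp

/-- the patterns -/
noncomputable def pat (A : Fin m → Matrix (Fin n) (Fin n) ℝ) (k : Fin m) :
    Matrix (Fin n) (Fin n) ℕ := Matrix.of fun x y => if 0 < A k x y then 1 else 0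

theorem rmono {r s : Fin n → Fin n → Prop} (h : ∀ a b, r a b → s a b) {x y : Fin n}
    (w : Relation.ReflTransGen r x y) : Relation.ReflTransGen s x y := by
  induction w with
  | refl => exact Relation.ReflTransGen.refl
  | tail _ h2 ih => exact ih.tail (h _ _ h2)

theorem Wk.mono {E E' : Fin m → Fin n → Fin n → Prop} (h : ∀ k x y, E k x y → E' k x y)
    {α : Fin m → ℕ} {x y : Fin n} (w : Wk E α x y) : Wk E' α x y := by
  induction w with
  | nil x => exact Wk.nil x
  | cons h1 _ ih => exact Wk.cons (h _ _ _ h1) ih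

theorem Wk.reach {E : Fin m → Fin n → Fin n → Prop} {α : Fin m → ℕ} {x y : Fin n}
    (w : Wk E α x y) : Relation.ReflTransGen (fun a b => ∃ k, E k a b) x y := by
  induction w with
  | nil x => exact Relation.ReflTransGen.refl
  | cons h1 _ ih => exact Relation.ReflTransGen.head ⟨_, h1⟩ ih

/-- masked integer flow from two walks with the same colours -/
theorem small (hCNT : S_CNT) (hSML : S_SML) (E : Fin m → Fin n → Fin n → Prop) (α : Fin m → ℕ)
    (hw : ∀ x y, Wk E α x y) (u v : Fin n) :
    ∃ X : Fin m → Fin n → Fin n → ℤ, (∀ k x y, |X k x y| < Mb n m) ∧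
      (∀ z, (∑ k, ∑ y, X k z y) - (∑ k, ∑ x, X k x z)
        = (if z = u then 1 else 0) - (if z = v then 1 else 0)) ∧
      (∀ k, ∑ x, ∑ y, X k x y = 0) ∧ ∀ k x y, ¬ E k x y → X k x y = 0 := by
  obtain ⟨f1, s1, c1, d1⟩ := hCNT n m E α u v (hw u v)
  obtain ⟨f0, s0, c0, d0⟩ := hCNT n m E α u u (hw u u)
  set b : Fin n ⊕ Fin m → ℤ := fun i => match i with
    | Sum.inl z => (if z = u then 1 else 0) - (if z = v then 1 else 0)
    | Sum.inr _ => 0 with hb
  have hbl : ∀ i, |b i| ≤ 1 := by
    intro i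
    rcases i with z | k
    · simp only [hb]
      split_ifs <;> simp
    · simp [hb]
  have hex : ∃ x : Fin m × Fin n × Fin n → ℤ, (am E).mulVec x = b := by
    refine ⟨fun j => (f1 j.1 j.2.1 j.2.2 : ℤ) - f0 j.1 j.2.1 j.2.2, ?_⟩
    have hm : ∀ k x y, mask E (fun j => (f1 j.1 j.2.1 j.2.2 : ℤ) - f0 j.1 j.2.1 j.2.2) k x y
        = (f1 k x y : ℤ) - f0 k x y := by
      intro k x y
      unfold mask
      split_ifs with h
      · rfl
      · have e1 : f1 k x y = 0 := by by_contra h'; exact h (s1 k x y h')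
        have e0 : f0 k x y = 0 := by by_contra h'; exact h (s0 k x y h')
        rw [e1, e0]; simp
    funext i
    rcases i with z | k
    · rw [am_inl]
      simp only [hm, Finset.sum_sub_distrib, hb]
      have e1 := d1 z
      have e0 := d0 z
      have e1' : (∑ k, ∑ y, (f1 k z y : ℤ)) + (if z = v then 1 else 0)
        = (∑ k, ∑ x, (f1 k x z : ℤ)) + (if z = u then 1 else 0) := by exact_mod_cast e1
      have e0' : (∑ k, ∑ y, (f0 k z y : ℤ)) + (if z = u then 1 else 0)
        = (∑ k, ∑ x, (f0 k x z : ℤ)) + (if z = u then 1 else 0) := by exact_mod_cast e0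
      linarith
    · rw [am_inr]
      simp only [hm, Finset.sum_sub_distrib, hb]
      have e1 : (∑ x, ∑ y, (f1 k x y : ℤ)) = α k := by exact_mod_cast c1 k
      have e0 : (∑ x, ∑ y, (f0 k x y : ℤ)) = α k := by exact_mod_cast c0 k
      rw [e1, e0, sub_self]
  obtain ⟨x, hx, hxb⟩ := hSML _ _ (am E) b (am_le E) hbl hex
  refine ⟨mask E x, ?_, ?_, ?_, ?_⟩
  · intro k a c
    have h1 := hxb (k, a, c)
    have h2 : Fintype.card (Fin m × Fin n × Fin n) = m * (n * n) := by simp
    rw [h2] at h1
    have h3 : |mask E x k a c| ≤ |x (k, a, c)| := by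
      unfold mask
      split_ifs
      · exact le_rfl
      · simp
    have h4 : ((Mb n m : ℕ) : ℤ)
        = 1 + (((m * (n * n) + 1) * (m * (n * n)).factorial ^ 2 : ℕ) : ℤ) := by
      rw [Mb]; push_cast; ring
    rw [h4]
    linarith
  · intro z
    have := congrFun hx (Sum.inl z)
    rw [am_inl] at this
    rw [this]
  · intro k
    have := congrFun hx (Sum.inr k)
    rw [am_inr] at this
    rw [this]
  · intro k a c h
    simp [mask, h]

/-- **The formula.** -/
theorem main (hHUR : S_HUR) (hEUL : S_EUL) (hCNT : S_CNT) (hSML : S_SML) (hPOS : S_POS)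
    (A : Fin m → Matrix (Fin n) (Fin n) ℝ) (hA : ∀ k x y, 0 ≤ A k x y) (α : Fin m → ℕ)
    (hα : ∀ x y, 0 < hur A α x y) : ∀ x y, 0 < hur A (alg n m (pat A)) x y := by
  intro u v
  rw [hHUR n m A hA]
  set E : Fin m → Fin n → Fin n → Prop := fun k x y => 0 < A k x y with hE
  have hw : ∀ x y, Wk E α x y := fun x y => (hHUR n m A hA α x y).1 (hα x y)
  have hreach : ∀ x y, Relation.ReflTransGen (fun a b => ∃ k, E k a b) x y :=
    fun x y => Wk.reach (hw x y)
  set B := pat A with hB
  have hB1 : ∀ k x y, E k x y → B k x y = 1 := by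
    intro k x y h
    simp only [hB, pat, Matrix.of_apply]
    exact if_pos h
  have hB0 : ∀ k x y, ¬ E k x y → B k x y = 0 := by
    intro k x y h
    simp only [hB, pat, Matrix.of_apply]
    exact if_neg h
  set S : Matrix (Fin n) (Fin n) ℕ := ∑ k, B k with hS
  have hSne : ∀ a b, (∃ k, E k a b) → S a b ≠ 0 := by
    rintro a b ⟨k, hk⟩
    rw [hS, Matrix.sum_apply]
    have h1 : B k a b ≤ ∑ k, B k a b :=
      Finset.single_le_sum (f := fun k => B k a b) (fun _ _ => Nat.zero_le _) (mem_univ k)
    rw [hB1 k a b hk] at h1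
    omega
  have hQ := hPOS n S (fun x y => rmono hSne (hreach x y))
  set Q := (1 + S) ^ n with hQd
  obtain ⟨X, hXb, hXd, hXc, hX0⟩ := small hCNT hSML E α hw u v
  -- the base circulation
  set c : Fin m → Fin n → Fin n → ℕ := fun k x y => Mb n m * (B k x y * Q y x) with hc
  have hcE : ∀ k x y, E k x y → (Mb n m : ℤ) ≤ c k x y := by
    intro k x y h
    have h1 : 1 ≤ Q y x := Nat.pos_of_ne_zero (hQ y x)
    have h2 : Mb n m ≤ c k x y := by
      simp only [hc, hB1 k x y h, one_mul]
      exact Nat.le_mul_of_pos_right _ h1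
    exact_mod_cast h2
  have hc0 : ∀ k x y, ¬ E k x y → c k x y = 0 := by
    intro k x y h
    simp [hc, hB0 k x y h]
  have hcirc : ∀ z, (∑ k, ∑ y, c k z y) = ∑ k, ∑ x, c k x z := by
    intro z
    have h1 : (∑ k, ∑ y, c k z y) = Mb n m * (S * Q) z z := by
      rw [Matrix.mul_apply]
      simp only [hc, hS, Matrix.sum_apply, Finset.sum_mul, Finset.mul_sum]
      rw [Finset.sum_comm]
    have h2 : (∑ k, ∑ x, c k x z) = Mb n m * (Q * S) z z := by
      rw [Matrix.mul_apply]
      simp only [hc, hS, Matrix.sum_apply, Finset.mul_sum]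
      rw [Finset.sum_comm]
      refine Finset.sum_congr rfl fun x _ => Finset.sum_congr rfl fun k _ => ?_
      ring
    have h3 : S * Q = Q * S := by
      rw [hQd]
      exact (((Commute.one_right S).add_right (Commute.refl S)).pow_right n).eq
    rw [h1, h2, h3]
  have hctot : ∀ k, ∑ x, ∑ y, c k x y = alg n m B k := by
    intro k
    rw [alg, Matrix.trace]
    simp only [hc, Matrix.diag_apply, Matrix.mul_apply, Finset.mul_sum]
    rfl
  -- the final flow
  set f : Fin m → Fin n → Fin n → ℕ := fun k x y => ((c k x y : ℤ) + X k x y).toNat with hf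
  have hfE : ∀ k x y, (f k x y : ℤ) = c k x y + X k x y := by
    intro k x y
    simp only [hf]
    rw [Int.toNat_of_nonneg]
    by_cases h : E k x y
    · have h1 := hcE k x y h
      have h2 := (abs_lt.1 (hXb k x y)).1
      linarith
    · rw [hc0 k x y h, hX0 k x y h]; simp
  have hfne : ∀ k x y, f k x y ≠ 0 ↔ E k x y := by
    intro k x y
    constructor
    · intro h
      by_contra h'
      apply h
      have := hfE k x y
      rw [hc0 k x y h', hX0 k x y h'] at this
      simpa using this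
    · intro h h'
      have h1 := hcE k x y h
      have h2 := (abs_lt.1 (hXb k x y)).1
      have h3 := hfE k x y
      rw [h'] at h3
      push_cast at h3
      linarith
  have hflow : Flow f u v := by
    intro z
    have h1 := hXd z
    have h2 : (∑ k, ∑ y, (c k z y : ℤ)) = ∑ k, ∑ x, (c k x z : ℤ) := by exact_mod_cast hcirc z
    have h3 : (∑ k, ∑ y, (f k z y : ℤ)) + (if z = v then 1 else 0)
        = (∑ k, ∑ x, (f k x z : ℤ)) + (if z = u then 1 else 0) := by
      simp only [hfE, Finset.sum_add_distrib]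
      linarith
    exact_mod_cast h3
  have hftot : (fun k => ∑ x, ∑ y, f k x y) = alg n m B := by
    funext k
    have h1 : (∑ x, ∑ y, (f k x y : ℤ)) = ∑ x, ∑ y, (c k x y : ℤ) := by
      simp only [hfE, Finset.sum_add_distrib]
      rw [hXc k, add_zero]
    have h2 : (∑ x, ∑ y, f k x y) = ∑ x, ∑ y, c k x y := by exact_mod_cast h1
    rw [h2, hctot]
  have hcon : ∀ x y, Relation.ReflTransGen (fun a b => ∃ k, f k a b ≠ 0) x y := by
    intro x y
    refine rmono ?_ (hreach x y)
    rintro a b ⟨k, hk⟩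
    exact ⟨k, (hfne k a b).2 hk⟩
  have hfin := hEUL n m f u v hcon hflow
  rw [hftot] at hfin
  exact Wk.mono (fun k x y h => (hfne k x y).1 h) hfin

/-- the output is a colour vector (not zero) -/
theorem nonzero (hHUR : S_HUR) (hPOS : S_POS)
    (A : Fin m → Matrix (Fin n) (Fin n) ℝ) (hA : ∀ k x y, 0 ≤ A k x y) (hn : 0 < n)
    (α : Fin m → ℕ) (hα1 : 1 ≤ ∑ k, α k)
    (hα : ∀ x y, 0 < hur A α x y) : 1 ≤ ∑ k, alg n m (pat A) k := by
  set E : Fin m → Fin n → Fin n → Prop := fun k x y => 0 < A k x y with hE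
  have hw : ∀ x y, Wk E α x y := fun x y => (hHUR n m A hA α x y).1 (hα x y)
  have hreach : ∀ x y, Relation.ReflTransGen (fun a b => ∃ k, E k a b) x y :=
    fun x y => Wk.reach (hw x y)
  have hedge : ∃ k x y, E k x y := by
    cases hw ⟨0, hn⟩ ⟨0, hn⟩ with
    | nil => simp at hα1
    | cons h _ => exact ⟨_, _, _, h⟩
  obtain ⟨k, x, y, hk⟩ := hedge
  have hSne : ∀ a b, (∃ k, E k a b) → (∑ k, pat A k) a b ≠ 0 := by
    rintro a b ⟨k, hk⟩
    rw [Matrix.sum_apply]
    have h1 : pat A k a b ≤ ∑ k, pat A k a b :=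
      Finset.single_le_sum (f := fun k => pat A k a b) (fun _ _ => Nat.zero_le _) (mem_univ k)
    have h2 : pat A k a b = 1 := by
      simp only [pat, Matrix.of_apply]
      exact if_pos hk
    rw [h2] at h1
    omega
  have hQ := hPOS n (∑ k, pat A k) (fun x y => rmono hSne (hreach x y)) y x
  have h1 : alg n m (pat A) k ≠ 0 := by
    rw [alg]
    have h2 : pat A k x y * ((1 + ∑ k, pat A k) ^ n) y x
        ≤ (pat A k * (1 + ∑ k, pat A k) ^ n).trace := by
      rw [Matrix.trace]
      have h3 : (pat A k * (1 + ∑ k, pat A k) ^ n) x x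
          ≤ ∑ i, (pat A k * (1 + ∑ k, pat A k) ^ n) i i :=
        Finset.single_le_sum (f := fun i => (pat A k * (1 + ∑ k, pat A k) ^ n) i i)
          (fun _ _ => Nat.zero_le _) (mem_univ x)
      refine le_trans ?_ h3
      rw [Matrix.mul_apply]
      exact Finset.single_le_sum (f := fun j => pat A k x j * ((1 + ∑ k, pat A k) ^ n) j x)
          (fun _ _ => Nat.zero_le _) (mem_univ y)
    have h4 : pat A k x y = 1 := by
      simp only [pat, Matrix.of_apply]
      exact if_pos hk
    rw [h4, one_mul] at h2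
    have h5 : 0 < Mb n m := by rw [Mb]; omega
    have h6 : 0 < (pat A k * (1 + ∑ k, pat A k) ^ n).trace :=
      lt_of_lt_of_le (Nat.pos_of_ne_zero hQ) h2
    exact (Nat.mul_pos h5 h6).ne'
  have h2 : alg n m (pat A) k ≤ ∑ k, alg n m (pat A) k :=
    Finset.single_le_sum (f := fun k => alg n m (pat A) k) (fun _ _ => Nat.zero_le _) (mem_univ k)
  omega

end Pool.Agent.X55.HZ.Main
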