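import Pool.Agent.X55.HZ.Run

set_option autoImplicit false

namespace Pool.Agent.X55.HZ.Run

open Finset

variable {n m : ℕ}

/-- the number of bits -/
def bits (n m : ℕ) : ℕ := (2 * (m * (n * n)) + n + 6) * (m * (n * n) + n + 2)

theorem bits_pos (n m : ℕ) : m * (n * n) + m + 2 ≤ bits n m + m := by
  unfold bits
  nlinarith [Nat.zero_le (m * (n * n)), Nat.zero_le n]

theorem alg_lt (B : Fin m → Matrix (Fin n) (Fin n) ℕ) (hB : Bin B) (k : Fin m) :
    alg n m B k < 2 ^ bits n m := Pool.Agent.X168.HZ.t_SIZ n m B hB k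

theorem Mb_lt (hn : 1 ≤ n) (hm : 1 ≤ m) : Mb n m < 2 ^ bits n m := by
  have h := alg_lt (n := n) (m := m) (fun _ => 1) (fun k x y => by
    change (1 : Matrix (Fin n) (Fin n) ℕ) x y ≤ 1
    rw [Matrix.one_apply]; split_ifs <;> omega) ⟨0, hm⟩
  refine lt_of_le_of_lt ?_ h
  rw [alg]
  apply Nat.le_mul_of_pos_right
  have hS : ((∑ _i : Fin m, (1 : Matrix (Fin n) (Fin n) ℕ))) = (m : Matrix (Fin n) (Fin n) ℕ) := by
    simp
  rw [hS, one_mul]
  have e : (1 + (m : Matrix (Fin n) (Fin n) ℕ)) ^ n = (((1 + m) ^ n : ℕ) : Matrix (Fin n) (Fin n) ℕ) := by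
    push_cast; rfl
  rw [e, Matrix.trace]
  have h3 : ((((1 + m) ^ n : ℕ) : Matrix (Fin n) (Fin n) ℕ)) ⟨0, hn⟩ ⟨0, hn⟩
      ≤ ∑ i, ((((1 + m) ^ n : ℕ) : Matrix (Fin n) (Fin n) ℕ)) i i :=
    Finset.single_le_sum (f := fun i => ((((1 + m) ^ n : ℕ) : Matrix (Fin n) (Fin n) ℕ)) i i)
      (fun _ _ => Nat.zero_le _) (mem_univ _)
  refine lt_of_lt_of_le ?_ h3
  rw [← Matrix.diagonal_natCast, Matrix.diagonal_apply_eq]
  positivity

theorem pow_lt {B : Fin m → Matrix (Fin n) (Fin n) ℕ} (hB : Bin B) {j : ℕ} (hj : j ≤ n)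
    (x y : Fin n) : ((1 + ∑ i, B i) ^ j) x y < 2 ^ bits n m := by
  have h1 := pow_le hB j x y
  have h2 : (1 + m * n) ^ j ≤ (1 + m * n) ^ n := Nat.pow_le_pow_right (by omega) hj
  have h3 : 1 + m * n ≤ 2 ^ (m * n) := by
    have := Nat.lt_two_pow_self (n := m * n)
    omega
  have h4 : (1 + m * n) ^ n ≤ 2 ^ (m * n * n) := by
    rw [pow_mul]
    exact Nat.pow_le_pow_left h3 n
  have h5 : 2 ^ (m * n * n) < 2 ^ bits n m := by
    apply Nat.pow_lt_pow_right (by norm_num)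
    have := bits_pos n m
    have e : m * n * n = m * (n * n) := by ring
    omega
  omega

/-- the multiplier -/
theorem ext_Mb {d : ℕ} {L : List ((Fin m → Matrix (Fin n) (Fin n) ℕ) → ℕ)} (hL : Good n m d L)
    (hd : 1 ≤ d) (hM : Mb n m < 2 ^ d) : Ext d L (2 * (m * (n * n)) + 8) (fun _ => Mb n m) := by
  set N := m * (n * n) with hN
  have hMe : Mb n m = 1 + (N + 1) * N.factorial ^ 2 := rfl
  have hf1 : 1 ≤ N.factorial := Nat.factorial_pos N
  have hb1 : N + 1 ≤ Mb n m := by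
    rw [hMe]; nlinarith [Nat.one_le_pow 2 _ hf1]
  have hb2 : N.factorial ≤ Mb n m := by
    rw [hMe]; nlinarith [Nat.one_le_pow 2 _ hf1]
  -- constants `j` and `j!`
  have key : ∀ j, j ≤ N → ∃ L', Good n m d L' ∧ (∀ f ∈ L, f ∈ L') ∧
      L'.length ≤ L.length + 2 + 2 * j ∧ (fun _ => 1) ∈ L' ∧ (fun _ => j) ∈ L' ∧
      (fun _ => j.factorial) ∈ L' := by
    intro j
    induction j with
    | zero =>
      intro _
      obtain ⟨L1, g1, s1, l1, m1⟩ := ext_cst hL 1 le_rfl hd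
      obtain ⟨L2, g2, s2, l2, m2⟩ := ext_cst g1 0 (by norm_num) hd
      exact ⟨L2, g2, fun f hf => s2 _ (s1 _ hf), by omega, s2 _ m1, m2, by simpa using s2 _ m1⟩
    | succ j ih =>
      intro hj
      obtain ⟨L0, g0, s0, l0, o0, m0, f0⟩ := ih (by omega)
      obtain ⟨L1, g1, s1, l1, m1⟩ := ext_add g0 m0 o0 (fun B _ => by
        have : j + 1 ≤ N + 1 := by omega
        exact lt_of_le_of_lt (this.trans hb1) hM)
      obtain ⟨L2, g2, s2, l2, m2⟩ := ext_mul g1 m1 (s1 _ f0) (fun B _ => by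
        have h1 : (j + 1) * j.factorial = (j + 1).factorial := rfl
        have h2 : (j + 1).factorial ≤ N.factorial := Nat.factorial_le hj
        rw [h1]
        exact lt_of_le_of_lt (h2.trans hb2) hM)
      refine ⟨L2, g2, fun f hf => s2 _ (s1 _ (s0 _ hf)), by omega, s2 _ (s1 _ o0), s2 _ m1, m2⟩
  obtain ⟨L0, g0, s0, l0, o0, m0, f0⟩ := key N le_rfl
  obtain ⟨L1, g1, s1, l1, m1⟩ := ext_add g0 m0 o0 (fun B _ => lt_of_le_of_lt hb1 hM)
  have hb3 : N.factorial * N.factorial ≤ Mb n m := by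
    rw [hMe]; nlinarith [Nat.one_le_pow 2 _ hf1]
  have hb4 : (N + 1) * (N.factorial * N.factorial) + 1 = Mb n m := by
    rw [hMe]; ring
  obtain ⟨L2, g2, s2, l2, m2⟩ := ext_mul g1 (s1 _ f0) (s1 _ f0)
    (fun B _ => lt_of_le_of_lt hb3 hM)
  obtain ⟨L3, g3, s3, l3, m3⟩ := ext_mul g2 (s2 _ m1) m2 (fun B _ => by omega)
  obtain ⟨L4, g4, s4, l4, m4⟩ := ext_add g3 m3 (s3 _ (s2 _ (s1 _ o0))) (fun B _ => by omega)
  refine ⟨L4, g4, fun f hf => s4 _ (s3 _ (s2 _ (s1 _ (s0 _ hf)))), by omega, ?_⟩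
  have : (fun _ : Fin m → Matrix (Fin n) (Fin n) ℕ => Mb n m)
      = fun _ => (N + 1) * (N.factorial * N.factorial) + 1 := by
    funext _; exact hb4.symm
  rw [this]
  exact m4

/-- **The program.** -/
theorem program (hn : 1 ≤ n) (hm : 1 ≤ m) :
    ∃ L : List ((Fin m → Matrix (Fin n) (Fin n) ℕ) → ℕ), Good n m (bits n m) L ∧
      L.length ≤ 2 * n ^ 4 + n ^ 3 + 7 * (m * n ^ 2) + 6 * n ^ 2 + 2 * m + 10 ∧
      ∀ k, (fun B => alg n m B k) ∈ L := by
  have hd : 1 ≤ bits n m := by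
    have := bits_pos n m
    omega
  have hM := Mb_lt hn hm
  have g00 : Good n m (bits n m) [] := ⟨Slp.nil, by simp⟩
  obtain ⟨L0, g0, s0, l0, m0⟩ := ext_Mb g00 hd hM
  obtain ⟨La, ga, sa, la, ma⟩ := ext_cst g0 1 le_rfl hd
  obtain ⟨Lb, gb, sb, lb, mb⟩ := ext_cst ga 0 (by norm_num) hd
  -- inputs
  obtain ⟨L1, g1, s1, l1, m1⟩ := many gb
    (fun (j : Fin m × Fin n × Fin n) B => B j.1 j.2.1 j.2.2) 1 univ
    (fun L' h1 _ j _ => ext_inp h1 hd j.1 j.2.1 j.2.2)
  -- `1 + S`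
  obtain ⟨L2, g2, s2, l2, m2⟩ := many g1
    (fun (j : Fin n × Fin n) B => (1 + ∑ i, B i) j.1 j.2) (2 * m + 2) univ (by
      intro L' h1 h2 j _
      have hb : ∀ B : Fin m → Matrix (Fin n) (Fin n) ℕ, Bin B →
          (∑ i, B i j.1 j.2 * 1) + (if j.1 = j.2 then 1 else 0) < 2 ^ bits n m := by
        intro B hB
        have h3 := pow_lt hB hn j.1 j.2
        rw [pow_one, Matrix.add_apply, Matrix.sum_apply, Matrix.one_apply] at h3
        simp only [mul_one]
        omega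
      obtain ⟨K1, q1, t1, r1, p1⟩ := dotp h1 hd (fun (i : Fin m) B => B i j.1 j.2)
        (fun _ _ => 1) univ (fun i _ => h2 _ (m1 (i, j.1, j.2) (mem_univ _)))
        (fun i _ => h2 _ (s1 _ (sb _ ma))) (fun B hB => by have := hb B hB; omega)
      have hc : (fun _ : Fin m → Matrix (Fin n) (Fin n) ℕ => (if j.1 = j.2 then 1 else 0 : ℕ))
          ∈ K1 := by
        split_ifs
        · exact t1 _ (h2 _ (s1 _ (sb _ ma)))
        · exact t1 _ (h2 _ (s1 _ mb))
      obtain ⟨K2, q2, t2, r2, p2⟩ := ext_add q1 p1 hc hb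
      refine ⟨K2, q2, fun f hf => t2 _ (t1 _ hf), ?_, ?_⟩
      · rw [Finset.card_univ, Fintype.card_fin] at r1
        omega
      · have e : (fun B : Fin m → Matrix (Fin n) (Fin n) ℕ => (1 + ∑ i, B i) j.1 j.2)
            = fun B => (∑ i, B i j.1 j.2 * 1) + (if j.1 = j.2 then 1 else 0) := by
          funext B
          rw [Matrix.add_apply, Matrix.sum_apply, Matrix.one_apply]
          simp only [mul_one]
          rw [add_comm]
        rw [e]
        exact p2)
  -- powers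
  have hpow : ∀ j, j ≤ n → ∃ L', Good n m (bits n m) L' ∧ (∀ f ∈ L2, f ∈ L') ∧
      L'.length ≤ L2.length + n ^ 2 + j * ((2 * n + 1) * n ^ 2) ∧
      ∀ x y, (fun B : Fin m → Matrix (Fin n) (Fin n) ℕ => ((1 + ∑ i, B i) ^ j) x y) ∈ L' := by
    intro j
    induction j with
    | zero =>
      intro _
      obtain ⟨K, q, t, r, p⟩ := many g2
        (fun (j : Fin n × Fin n) (_ : Fin m → Matrix (Fin n) (Fin n) ℕ) =>
          (if j.1 = j.2 then 1 else 0 : ℕ)) 1 univ
        (fun L' h1 _ j _ => ext_cst h1 _ (by split_ifs <;> omega) hd)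
      refine ⟨K, q, t, ?_, ?_⟩
      · simp only [Finset.card_univ, Fintype.card_prod, Fintype.card_fin] at r
        rw [sq]; omega
      · intro x y
        have := p (x, y) (mem_univ _)
        simpa [Matrix.one_apply] using this
    | succ j ih =>
      intro hj
      obtain ⟨K0, q0, t0, r0, p0⟩ := ih (by omega)
      obtain ⟨K, q, t, r, p⟩ := many q0
        (fun (a : Fin n × Fin n) (B : Fin m → Matrix (Fin n) (Fin n) ℕ) =>
          ((1 + ∑ i, B i) ^ (j + 1)) a.1 a.2) (2 * n + 1) univ (by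
          intro L' h1 h2 a _
          have e : (fun B : Fin m → Matrix (Fin n) (Fin n) ℕ =>
              ((1 + ∑ i, B i) ^ (j + 1)) a.1 a.2)
              = fun B => ∑ z, ((1 + ∑ i, B i) ^ j) a.1 z * (1 + ∑ i, B i) z a.2 := by
            funext B
            rw [pow_succ, Matrix.mul_apply]
          rw [e]
          have := dotp h1 hd (fun (z : Fin n) B => ((1 + ∑ i, B i) ^ j) a.1 z)
            (fun (z : Fin n) B => (1 + ∑ i, B i) z a.2) univ
            (fun z _ => h2 _ (p0 a.1 z))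
            (fun z _ => h2 _ (t0 _ (m2 (z, a.2) (mem_univ _))))
            (fun B hB => by
              have h3 := pow_lt hB hj a.1 a.2
              rwa [pow_succ, Matrix.mul_apply] at h3)
          simpa using this)
      refine ⟨K, q, fun f hf => t _ (t0 _ hf), ?_, fun x y => p (x, y) (mem_univ _)⟩
      simp only [Finset.card_univ, Fintype.card_prod, Fintype.card_fin] at r
      have : (j + 1) * ((2 * n + 1) * n ^ 2) = j * ((2 * n + 1) * n ^ 2)
        + (2 * n + 1) * (n * n) := by ring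
      omega
  obtain ⟨L3, g3, s3, l3, m3⟩ := hpow n le_rfl
  -- outputs
  obtain ⟨L4, g4, s4, l4, m4⟩ := many g3
    (fun (k : Fin m) (B : Fin m → Matrix (Fin n) (Fin n) ℕ) => alg n m B k) (2 * n ^ 2 + 2) univ (by
      intro L' h1 h2 k _
      have e : ∀ B : Fin m → Matrix (Fin n) (Fin n) ℕ, (B k * (1 + ∑ i, B i) ^ n).trace
          = ∑ a : Fin n × Fin n, B k a.1 a.2 * ((1 + ∑ i, B i) ^ n) a.2 a.1 := by
        intro B
        rw [Matrix.trace, Fintype.sum_prod_type]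
        simp only [Matrix.diag_apply, Matrix.mul_apply]
      have hMpos : 1 ≤ Mb n m := by rw [Mb]; omega
      obtain ⟨K1, q1, t1, r1, p1⟩ := dotp h1 hd
        (fun (a : Fin n × Fin n) (B : Fin m → Matrix (Fin n) (Fin n) ℕ) => B k a.1 a.2)
        (fun (a : Fin n × Fin n) (B : Fin m → Matrix (Fin n) (Fin n) ℕ) =>
          ((1 + ∑ i, B i) ^ n) a.2 a.1) univ
        (fun a _ => h2 _ (s3 _ (s2 _ (m1 (k, a.1, a.2) (mem_univ _)))))
        (fun a _ => h2 _ (m3 a.2 a.1))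
        (fun B hB => by
          have h3 := alg_lt B hB k
          rw [alg, e] at h3
          exact lt_of_le_of_lt (Nat.le_mul_of_pos_left _ hMpos) h3)
      obtain ⟨K2, q2, t2, r2, p2⟩ := ext_mul q1
        (t1 _ (h2 _ (s3 _ (s2 _ (s1 _ (sb _ (sa _ m0))))))) p1
        (fun B hB => by
          have h3 := alg_lt B hB k
          rwa [alg, e] at h3)
      refine ⟨K2, q2, fun f hf => t2 _ (t1 _ hf), ?_, ?_⟩
      · simp only [Finset.card_univ, Fintype.card_prod, Fintype.card_fin] at r1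
        rw [sq]; omega
      · have e2 : (fun B : Fin m → Matrix (Fin n) (Fin n) ℕ => alg n m B k)
            = fun B => Mb n m * ∑ a : Fin n × Fin n, B k a.1 a.2
              * ((1 + ∑ i, B i) ^ n) a.2 a.1 := by
          funext B
          rw [alg, e]
        rw [e2]
        exact p2)
  refine ⟨L4, g4, ?_, fun k => m4 k (mem_univ _)⟩
  simp only [Finset.card_univ, Fintype.card_prod, Fintype.card_fin, List.length_nil] at l0 l1 l2 l4
  have e1 : n * ((2 * n + 1) * n ^ 2) = 2 * n ^ 4 + n ^ 3 := by ring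
  have e2 : (2 * m + 2) * (n * n) = 2 * (m * n ^ 2) + 2 * n ^ 2 := by ring
  have e3 : (2 * n ^ 2 + 2) * m = 2 * (m * n ^ 2) + 2 * m := by ring
  have e4 : m * (n * n) = m * n ^ 2 := by ring
  rw [e1] at l3
  rw [e2] at l2
  rw [e3] at l4
  rw [e4] at l0 l1
  omega

end Pool.Agent.X55.HZ.Run
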