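import Pool.Agent.X55.HZ.Stm
import Pool.Agent.X168.HZ.Siz

set_option autoImplicit false

namespace Pool.Agent.X55.HZ.Run

open Finset

variable {n m d : ℕ}

/-- Straight-line programs over the natural numbers whose inputs are the entries of the matrices
`B k`: the list of the functions computed so far, the latest first. -/
inductive Slp (n m : ℕ) : List ((Fin m → Matrix (Fin n) (Fin n) ℕ) → ℕ) → Prop
  | nil : Slp n m []
  | cst {L : List ((Fin m → Matrix (Fin n) (Fin n) ℕ) → ℕ)} (c : ℕ) (hc : c ≤ 1)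
      (h : Slp n m L) : Slp n m ((fun _ => c) :: L)
  | inp {L : List ((Fin m → Matrix (Fin n) (Fin n) ℕ) → ℕ)} (k : Fin m) (x y : Fin n)
      (h : Slp n m L) : Slp n m ((fun B => B k x y) :: L)
  | add {L : List ((Fin m → Matrix (Fin n) (Fin n) ℕ) → ℕ)}
      {f g : (Fin m → Matrix (Fin n) (Fin n) ℕ) → ℕ} (hf : f ∈ L) (hg : g ∈ L)
      (h : Slp n m L) : Slp n m ((fun B => f B + g B) :: L)
  | mul {L : List ((Fin m → Matrix (Fin n) (Fin n) ℕ) → ℕ)}
      {f g : (Fin m → Matrix (Fin n) (Fin n) ℕ) → ℕ} (hf : f ∈ L) (hg : g ∈ L)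
      (h : Slp n m L) : Slp n m ((fun B => f B * g B) :: L)

/-- 0/1 inputs -/
def Bin (B : Fin m → Matrix (Fin n) (Fin n) ℕ) : Prop := ∀ k x y, B k x y ≤ 1

/-- a program all of whose values on 0/1 inputs are below `2 ^ d` -/
def Good (n m d : ℕ) (L : List ((Fin m → Matrix (Fin n) (Fin n) ℕ) → ℕ)) : Prop :=
  Slp n m L ∧ ∀ f ∈ L, ∀ B, Bin B → f B < 2 ^ d

/-- extension by at most `c` steps which contains `F` -/
def Ext (d : ℕ) (L : List ((Fin m → Matrix (Fin n) (Fin n) ℕ) → ℕ)) (c : ℕ)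
    (F : (Fin m → Matrix (Fin n) (Fin n) ℕ) → ℕ) : Prop :=
  ∃ L', Good n m d L' ∧ (∀ f ∈ L, f ∈ L') ∧ L'.length ≤ L.length + c ∧ F ∈ L'

theorem ext_cst {L : List ((Fin m → Matrix (Fin n) (Fin n) ℕ) → ℕ)} (hL : Good n m d L) (c : ℕ)
    (hc : c ≤ 1) (hd : 1 ≤ d) : Ext d L 1 (fun _ => c) := by
  refine ⟨_, ⟨Slp.cst c hc hL.1, ?_⟩, fun f hf => List.mem_cons_of_mem _ hf, by simp,
    List.mem_cons_self⟩
  intro f hf B hB
  rcases List.mem_cons.1 hf with rfl | hf
  · have : 2 ^ 1 ≤ 2 ^ d := Nat.pow_le_pow_right (by norm_num) hd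
    simp only
    omega
  · exact hL.2 f hf B hB

theorem ext_inp {L : List ((Fin m → Matrix (Fin n) (Fin n) ℕ) → ℕ)} (hL : Good n m d L)
    (hd : 1 ≤ d) (k : Fin m) (x y : Fin n) : Ext d L 1 (fun B => B k x y) := by
  refine ⟨_, ⟨Slp.inp k x y hL.1, ?_⟩, fun f hf => List.mem_cons_of_mem _ hf, by simp,
    List.mem_cons_self⟩
  intro f hf B hB
  rcases List.mem_cons.1 hf with rfl | hf
  · have : 2 ^ 1 ≤ 2 ^ d := Nat.pow_le_pow_right (by norm_num) hd
    have := hB k x y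
    simp only
    omega
  · exact hL.2 f hf B hB

theorem ext_add {L : List ((Fin m → Matrix (Fin n) (Fin n) ℕ) → ℕ)} (hL : Good n m d L)
    {f g : (Fin m → Matrix (Fin n) (Fin n) ℕ) → ℕ} (hf : f ∈ L) (hg : g ∈ L)
    (hb : ∀ B, Bin B → f B + g B < 2 ^ d) : Ext d L 1 (fun B => f B + g B) := by
  refine ⟨_, ⟨Slp.add hf hg hL.1, ?_⟩, fun f hf => List.mem_cons_of_mem _ hf, by simp,
    List.mem_cons_self⟩
  intro f' hf' B hB
  rcases List.mem_cons.1 hf' with rfl | hf'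
  · exact hb B hB
  · exact hL.2 f' hf' B hB

theorem ext_mul {L : List ((Fin m → Matrix (Fin n) (Fin n) ℕ) → ℕ)} (hL : Good n m d L)
    {f g : (Fin m → Matrix (Fin n) (Fin n) ℕ) → ℕ} (hf : f ∈ L) (hg : g ∈ L)
    (hb : ∀ B, Bin B → f B * g B < 2 ^ d) : Ext d L 1 (fun B => f B * g B) := by
  refine ⟨_, ⟨Slp.mul hf hg hL.1, ?_⟩, fun f hf => List.mem_cons_of_mem _ hf, by simp,
    List.mem_cons_self⟩
  intro f' hf' B hB
  rcases List.mem_cons.1 hf' with rfl | hf'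
  · exact hb B hB
  · exact hL.2 f' hf' B hB

/-- a sum of products -/
theorem dotp {ι : Type*} [DecidableEq ι]
    {L : List ((Fin m → Matrix (Fin n) (Fin n) ℕ) → ℕ)} (hL : Good n m d L) (hd : 1 ≤ d)
    (f g : ι → (Fin m → Matrix (Fin n) (Fin n) ℕ) → ℕ) (s : Finset ι)
    (hf : ∀ i ∈ s, f i ∈ L) (hg : ∀ i ∈ s, g i ∈ L)
    (hb : ∀ B, Bin B → ∑ i ∈ s, f i B * g i B < 2 ^ d) :
    Ext d L (2 * s.card + 1) (fun B => ∑ i ∈ s, f i B * g i B) := by
  induction s using Finset.induction_on with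
  | empty =>
    obtain ⟨L', h1, h2, h3, h4⟩ := ext_cst hL 0 (by norm_num) hd
    refine ⟨L', h1, h2, by simpa using h3, ?_⟩
    simpa using h4
  | insert a s ha ih =>
    have hb' : ∀ B, Bin B → f a B * g a B + ∑ i ∈ s, f i B * g i B < 2 ^ d := by
      intro B hB
      have := hb B hB
      rwa [Finset.sum_insert ha] at this
    obtain ⟨L1, g1, s1, l1, m1⟩ := ih (fun i hi => hf i (Finset.mem_insert_of_mem hi))
      (fun i hi => hg i (Finset.mem_insert_of_mem hi))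
      (fun B hB => by have := hb' B hB; omega)
    obtain ⟨L2, g2, s2, l2, m2⟩ := ext_mul g1 (s1 _ (hf a (Finset.mem_insert_self a s)))
      (s1 _ (hg a (Finset.mem_insert_self a s))) (fun B hB => by have := hb' B hB; omega)
    obtain ⟨L3, g3, s3, l3, m3⟩ := ext_add g2 m2 (s2 _ m1) hb'
    refine ⟨L3, g3, fun f hf => s3 _ (s2 _ (s1 _ hf)), ?_, ?_⟩
    · rw [Finset.card_insert_of_notMem ha]; omega
    · have : (fun B => ∑ i ∈ insert a s, f i B * g i B)
          = fun B => f a B * g a B + ∑ i ∈ s, f i B * g i B := by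
        funext B
        rw [Finset.sum_insert ha]
      rw [this]
      exact m3

/-- finitely many targets -/
theorem many {ι : Type*} [DecidableEq ι]
    {L : List ((Fin m → Matrix (Fin n) (Fin n) ℕ) → ℕ)} (hL : Good n m d L)
    (F : ι → (Fin m → Matrix (Fin n) (Fin n) ℕ) → ℕ) (c : ℕ) (s : Finset ι)
    (step : ∀ L', Good n m d L' → (∀ f ∈ L, f ∈ L') → ∀ j ∈ s, Ext d L' c (F j)) :
    ∃ L', Good n m d L' ∧ (∀ f ∈ L, f ∈ L') ∧ L'.length ≤ L.length + c * s.card ∧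
      ∀ j ∈ s, F j ∈ L' := by
  induction s using Finset.induction_on with
  | empty => exact ⟨L, hL, fun _ h => h, by simp, by simp⟩
  | insert a s ha ih =>
    obtain ⟨L1, g1, s1, l1, m1⟩ := ih
      (fun L' h1 h2 j hj => step L' h1 h2 j (Finset.mem_insert_of_mem hj))
    obtain ⟨L2, g2, s2, l2, m2⟩ := step L1 g1 s1 a (Finset.mem_insert_self a s)
    refine ⟨L2, g2, fun f hf => s2 _ (s1 _ hf), ?_, ?_⟩
    · rw [Finset.card_insert_of_notMem ha, Nat.mul_add]; omega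
    · intro j hj
      rcases Finset.mem_insert.1 hj with rfl | hj
      · exact m2
      · exact s2 _ (m1 j hj)

/-- entries of the powers -/
theorem pow_le {B : Fin m → Matrix (Fin n) (Fin n) ℕ} (hB : Bin B) (j : ℕ) :
    ∀ x y, ((1 + ∑ i, B i) ^ j) x y ≤ (1 + m * n) ^ j := by
  have hS : ∀ x y, (∑ i, B i) x y ≤ m := by
    intro x y
    rw [Matrix.sum_apply]
    calc ∑ i, B i x y ≤ ∑ _i : Fin m, 1 := Finset.sum_le_sum fun i _ => hB i x y
      _ = m := by simp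
  have hcol : ∀ y, ∑ z, (1 + ∑ i, B i) z y ≤ 1 + m * n := by
    intro y
    have e : ∀ z, (1 + ∑ i, B i) z y = (1 : Matrix (Fin n) (Fin n) ℕ) z y + (∑ i, B i) z y :=
      fun z => rfl
    simp only [e, Finset.sum_add_distrib]
    have h1 : ∑ z, (1 : Matrix (Fin n) (Fin n) ℕ) z y = 1 := by
      simp [Matrix.one_apply]
    have h2 : ∑ z, (∑ i, B i) z y ≤ m * n := by
      calc ∑ z, (∑ i, B i) z y ≤ ∑ _z : Fin n, m := Finset.sum_le_sum fun z _ => hS z y
        _ = m * n := by simp [mul_comm]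
    omega
  induction j with
  | zero => intro x y; simp [Matrix.one_apply]; split_ifs <;> omega
  | succ j ih =>
    intro x y
    rw [pow_succ, Matrix.mul_apply, pow_succ]
    calc ∑ z, ((1 + ∑ i, B i) ^ j) x z * (1 + ∑ i, B i) z y
        ≤ ∑ z, (1 + m * n) ^ j * (1 + ∑ i, B i) z y :=
          Finset.sum_le_sum fun z _ => Nat.mul_le_mul_right _ (ih x z)
      _ = (1 + m * n) ^ j * ∑ z, (1 + ∑ i, B i) z y := by rw [Finset.mul_sum]
      _ ≤ _ := Nat.mul_le_mul_left _ (hcol y)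

end Pool.Agent.X55.HZ.Run
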